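import Pool.Agent.Work.MP_db9399_px.LInterface
import Pool.Agent.Work.MP_db9399_all_helper6.LLLI

/-!
# MP_db9399, THEOREM EXP, PARTX: block LLX (assembly of the local lemma)
-/

set_option autoImplicit false

namespace Pool.Agent.Work.MP_db9399_px.helper6

open Finset Classical
open Pool.Agent.Work.MP_db9399_all (nb pr DepOnI PackI)

universe u

namespace LLXAux

/-- a coordinate `y` is in the scope of few roots -/
theorem roots {V : Type u} [Fintype V] (hBALL : Stmt_BALL.{u}) (G : SimpleGraph V) (d M : ℕ)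
    (hd : ∀ v, (nb G v).card ≤ d) (blk : V → V) (pos : V → Fin M) (hB : Blocks M blk pos)
    (k : ℕ) (y : V) :
    ((univ.filter (fun x => y ∈ (lball G k x).image blk)).card : ℝ) ≤ M * (d + 1) ^ k := by
  obtain ⟨h1, h2, -, -⟩ := hBALL G d hd
  have h3 : (univ.filter (fun z => blk z = y)).card ≤ M := by
    have h4 : ((univ.filter (fun z => blk z = y)).image pos).card =
        (univ.filter (fun z => blk z = y)).card := by
      apply Finset.card_image_of_injOn
      intro v hv w hw h
      simp only [Finset.coe_filter, Finset.mem_univ, true_and, Set.mem_ofPred_eq] at hv hw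
      exact hB v w (hv.trans hw.symm) h
    rw [← h4]
    exact (Finset.card_le_univ _).trans (by simp)
  have h5 : (univ.filter (fun x => y ∈ (lball G k x).image blk)).card ≤ M * (d + 1) ^ k := by
    refine (Finset.card_le_card (t := (univ.filter (fun z => blk z = y)).biUnion
      (fun z => lball G k z)) ?_).trans ?_
    · intro x hx
      simp only [Finset.mem_filter, Finset.mem_univ, true_and, Finset.mem_image] at hx
      obtain ⟨z, hz, hzy⟩ := hx
      exact Finset.mem_biUnion.2 ⟨z, by simp [hzy], h2 k x z hz⟩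
    · refine Finset.card_biUnion_le.trans ?_
      refine (Finset.sum_le_card_nsmul _ _ ((d + 1) ^ k) fun z _ => h1 k z).trans ?_
      rw [smul_eq_mul]
      exact Nat.mul_le_mul_right _ h3
  exact_mod_cast h5

end LLXAux

open LLXAux

/-- Block LLX. -/
theorem stmt_LLX (hBALL : Stmt_BALL.{u}) (hLPKX : Stmt_LPKX.{u}) (hLPKV : Stmt_LPKV.{u})
    (hLNUM : Stmt_LNUM) : Stmt_LLX.{u} := by
  intro M σ δ c1 hM hσ hσ1 hδ hδ1 hc1
  have hMr : (1 : ℝ) ≤ M := by exact_mod_cast hM
  obtain ⟨dX, hdX3, HX⟩ := hLPKX M σ hM hσ hσ1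
  obtain ⟨dV, hdV1, HV⟩ := hLPKV M σ δ hM hσ hσ1 hδ hδ1
  have hs0 : 0 < σ ^ 2 / (200 * (M : ℝ) ^ 5) := by positivity
  have he0 : 0 < δ ^ 2 / (32 * (M : ℝ)) := by positivity
  obtain ⟨dN, hdN3, HN⟩ := hLNUM M (σ ^ 2 / (200 * (M : ℝ) ^ 5)) c1 (δ ^ 2 / (32 * (M : ℝ))) hM
    hs0 hc1 he0
  refine ⟨max dX (max dV dN), le_trans (by omega) (le_max_left _ _), ?_⟩
  intro V _ G d blk pos hd hdeg hB
  have hdX : dX ≤ d := (le_max_left _ _).trans hd
  have hdV : dV ≤ d := (le_max_left _ _).trans ((le_max_right _ _).trans hd)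
  have hdN : dN ≤ d := (le_max_right _ _).trans ((le_max_right _ _).trans hd)
  have hd3 : (3 : ℝ) ≤ d := by exact_mod_cast hdX3.trans hdX
  have hlog : 0 ≤ Real.log d := Real.log_nonneg (by linarith)
  have hs1 : σ ^ 2 / (200 * (M : ℝ) ^ 5) ≤ 1 := by
    rw [div_le_one (by positivity)]
    have h1 : σ ^ 2 ≤ 1 := by nlinarith
    have h2 : (1 : ℝ) ≤ (M : ℝ) ^ 5 := one_le_pow₀ hMr
    linarith
  obtain ⟨Lm, hLm⟩ := exists_nat_ge (Real.log d * (2 * Fintype.card V) / (c1 * d))
  obtain ⟨hN0, hNL⟩ := HN d hdN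
  set s : ℝ := σ ^ 2 / (200 * (M : ℝ) ^ 5) with hs
  set T : ℝ := s / (16 * (d + 1)) with hT
  have hT0 : 0 ≤ T := by positivity
  set W0 : ℝ := 20 * 4 ^ M * Real.exp (-(δ ^ 2 / (32 * M) * d)) with hW0
  set WL : ℕ → ℝ := fun L => 20 * 4 ^ M * (d + 2) ^ 2 * (4 * (d + 1)) ^ (L + 1) *
          Real.exp (-(3 / 4 * s * (c1 * L * d / Real.log d))) with hWL
  have hW0' : 0 ≤ W0 := by positivity
  have hWL' : ∀ L, 0 ≤ WL L := fun L => by simp only [hWL]; positivity
  have key := Pool.Agent.Work.MP_db9399_all.stmt_LLLI V (M.factorial) (V × Fin (Lm + 1)) T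
    (fun r => if (r.2 : ℕ) = 0 then (lball G 4 r.1).image blk
      else (lball G (r.2 + 3) r.1).image blk)
    (fun r => if (r.2 : ℕ) = 0 then W0 else WL r.2)
    (fun r f => if (r.2 : ℕ) = 0 then PropV G d M δ blk pos r.1 f
      else PropX G d M σ c1 blk pos r.1 r.2 f)
    (Nat.factorial_pos M) hT0
    (by
      rw [hT, div_le_iff₀ (by positivity)]
      nlinarith)
    (by
      intro r
      by_cases hr : (r.2 : ℕ) = 0
      · simp only [hr, if_true]
        exact HV G d blk pos r.1 hdV hdeg hB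
      · simp only [hr, if_false]
        exact HX G d r.2 c1 blk pos r.1 hdX (Nat.one_le_iff_ne_zero.2 hr) hc1 hdeg hB)
    (by
      intro y
      have h1 : ∑ r ∈ univ.filter (fun r : V × Fin (Lm + 1) =>
            y ∈ (if (r.2 : ℕ) = 0 then (lball G 4 r.1).image blk
              else (lball G (r.2 + 3) r.1).image blk)),
            (if (r.2 : ℕ) = 0 then W0 else WL r.2) =
          ∑ L : Fin (Lm + 1), ∑ x : V,
            (if y ∈ (if (L : ℕ) = 0 then (lball G 4 x).image blk
              else (lball G (L + 3) x).image blk) then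
              (if (L : ℕ) = 0 then W0 else WL L) else 0) := by
        rw [Finset.sum_filter, Fintype.sum_prod_type, Finset.sum_comm]
      rw [h1]
      have h2 : ∀ L : Fin (Lm + 1), (∑ x : V,
            (if y ∈ (if (L : ℕ) = 0 then (lball G 4 x).image blk
              else (lball G (L + 3) x).image blk) then
              (if (L : ℕ) = 0 then W0 else WL L) else 0)) ≤ T / 4 * (1 / 2) ^ (L : ℕ) := by
        intro L
        by_cases hL : (L : ℕ) = 0
        · simp only [hL, if_true, pow_zero, mul_one]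
          rw [← Finset.sum_filter, Finset.sum_const, nsmul_eq_mul]
          refine le_trans ?_ hN0
          exact mul_le_mul_of_nonneg_right (roots hBALL G d M hdeg blk pos hB 4 y) hW0'
        · simp only [hL, if_false]
          rw [← Finset.sum_filter, Finset.sum_const, nsmul_eq_mul]
          have h3 := hNL L (Nat.one_le_iff_ne_zero.2 hL)
          have h4 : T / 4 * (1 / 2) ^ (L : ℕ) = T / 4 / 2 ^ (L : ℕ) := by
            rw [one_div, inv_pow, div_eq_mul_inv (T / 4) (2 ^ (L : ℕ))]
          rw [h4]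
          refine le_trans ?_ h3
          exact mul_le_mul_of_nonneg_right (roots hBALL G d M hdeg blk pos hB (L + 3) y) (hWL' _)
      refine (Finset.sum_le_sum fun L _ => h2 L).trans ?_
      rw [← Finset.mul_sum, ← Finset.sum_range (fun L => ((1 : ℝ) / 2) ^ L)]
      have h3 := sum_geometric_two_le (Lm + 1)
      nlinarith)
  obtain ⟨f, hf⟩ := key
  refine ⟨f, ?_, ?_⟩
  · intro v P
    have h1 := hf (v, ⟨0, Nat.succ_pos _⟩)
    simp only [if_true] at h1
    exact h1 P
  · intro P Q L w R S θ1 θ2 hPQ hP hw hL hθ1 hθ2 hRS hc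
    have h1 : (L : ℝ) ≤ Lm := by
      refine le_trans ?_ hLm
      rw [le_div_iff₀ (by positivity)]
      have h2 : ((hit G θ2 S).card : ℝ) ≤ Fintype.card V := by
        exact_mod_cast Finset.card_le_univ _
      have h3 : ((hit G θ1 R).card : ℝ) ≤ Fintype.card V := by
        exact_mod_cast Finset.card_le_univ _
      calc (L : ℝ) * (c1 * d) = c1 * (L * d) := by ring
        _ ≤ _ := hc
        _ ≤ _ := mul_le_mul_of_nonneg_left (by linarith) hlog
    have h2 : L < Lm + 1 := by
      have : L ≤ Lm := by exact_mod_cast h1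
      omega
    have h3 := hf (w 0, ⟨L, h2⟩)
    simp only [Nat.one_le_iff_ne_zero.1 hL, if_false] at h3
    exact h3 P Q w R S θ1 θ2 hPQ hP hw rfl hθ1 hθ2 hRS hc

end Pool.Agent.Work.MP_db9399_px.helper6
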