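import Pool.Agent.Work.MP_db9399_px.Interface

/-!
# MP_db9399, THEOREM EXP, PARTX: block PARTX (from PX1)
-/

set_option autoImplicit false

namespace Pool.Agent.Work.MP_db9399_px.helper6

open Finset Classical
open Pool.Agent.Work.MP_db9399_all (nb)

universe u

namespace PARTXAux

theorem exists_sort {V : Type u} [Fintype V] (g : V → ℕ) :
    ∃ o : Fin (Fintype.card V) ≃ V, Monotone (fun i => g (o i)) := by
  refine ⟨(Tuple.sort (fun i => g ((Fintype.equivFin V).symm i))).trans
    (Fintype.equivFin V).symm, ?_⟩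
  exact Tuple.monotone_sort (fun i => g ((Fintype.equivFin V).symm i))

section
variable {V : Type u} [Fintype V] (o : Fin (Fintype.card V) ≃ V) {M : ℕ} (hM : 0 < M)

/-- the index of `v` in the sorted order -/
def idx (v : V) : ℕ := (o.symm v).val

theorem idx_lt (v : V) : idx o v < Fintype.card V := (o.symm v).2

theorem idx_inj {v w : V} (h : idx o v = idx o w) : v = w := o.symm.injective (Fin.ext h)

theorem idx_o (i : Fin (Fintype.card V)) : idx o (o i) = i := by simp [idx]

theorem o_idx (v : V) : o ⟨idx o v, idx_lt o v⟩ = v := by simp [idx]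

/-- the first vertex of the block of `v` -/
def bk (M : ℕ) (v : V) : V :=
  o ⟨M * (idx o v / M), lt_of_le_of_lt (Nat.mul_div_le _ _) (idx_lt o v)⟩

/-- the position of `v` in its block -/
def ps (v : V) : Fin M := ⟨idx o v % M, Nat.mod_lt _ hM⟩

include hM in
theorem bk_eq {v w : V} : bk o M v = bk o M w ↔ idx o v / M = idx o w / M := by
  unfold bk
  rw [o.apply_eq_iff_eq, Fin.mk.injEq]
  exact Nat.mul_right_inj hM.ne'

theorem eq_of {v w : V} (h : idx o v / M = idx o w / M) (h' : ps o hM v = ps o hM w) : v = w := by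
  apply idx_inj o
  have h2 : idx o v % M = idx o w % M := by simpa [ps] using h'
  rw [← Nat.div_add_mod (idx o v) M, ← Nat.div_add_mod (idx o w) M, h, h2]

theorem blocks : Blocks M (bk o M) (ps o hM) := by
  intro v w h h'
  exact eq_of o hM ((bk_eq o hM).1 h) h'

/-- in a full block -/
def full (M : ℕ) (v : V) : Prop := idx o v / M < Fintype.card V / M

theorem full_iff {v : V} : full o M v ↔ idx o v / M < Fintype.card V / M := Iff.rfl

theorem not_full {v : V} (h : ¬ full o M v) : idx o v / M = Fintype.card V / M := by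
  have h1 : idx o v / M ≤ Fintype.card V / M := Nat.div_le_div_right (idx_lt o v).le
  unfold full at h
  omega

/-- the partition -/
noncomputable def pp (e : Fin M ≃ Fin M) (f : V → Fin (M.factorial)) (v : V) : Fin M :=
  if full o M v then atm M (bk o M) (ps o hM) f v else e (ps o hM v)

variable (e : Fin M ≃ Fin M) (f : V → Fin (M.factorial))

theorem pp_inj {v w : V} (h : idx o v / M = idx o w / M) (h' : pp o hM e f v = pp o hM e f w) :
    v = w := by
  unfold pp at h'
  by_cases hv : full o M v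
  · have hw : full o M w := by
      unfold full at hv ⊢
      rwa [← h]
    rw [if_pos hv, if_pos hw] at h'
    unfold atm at h'
    rw [(bk_eq o hM).2 h] at h'
    exact eq_of o hM h ((per M (f (bk o M w))).injective h')
  · have hw : ¬ full o M w := by
      unfold full at hv ⊢
      rwa [← h]
    rw [if_neg hv, if_neg hw] at h'
    exact eq_of o hM h (e.injective h')

theorem pp_surj (k : ℕ) (hk : k < Fintype.card V / M) (a : Fin M) :
    ∃ v, idx o v / M = k ∧ pp o hM e f v = a := by
  have h1 : M * (k + 1) ≤ Fintype.card V :=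
    (Nat.mul_le_mul_left M hk).trans (Nat.mul_div_le _ _)
  have h2 : ∀ i : Fin M, M * k + i < Fintype.card V := by
    intro i
    have := i.2
    rw [Nat.mul_succ] at h1
    omega
  set x0 : V := o ⟨M * k, by have := h2 ⟨0, hM⟩; simpa using this⟩ with hx0
  set i := (per M (f x0)).symm a with hi
  have h3 : idx o (o ⟨M * k + i, h2 i⟩) / M = k := by
    rw [idx_o]
    simp only
    rw [Nat.mul_add_div hM, Nat.div_eq_of_lt i.2, Nat.add_zero]
  refine ⟨o ⟨M * k + i, h2 i⟩, h3, ?_⟩
  unfold pp
  rw [if_pos (by unfold full; rw [h3]; exact hk)]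
  unfold atm
  have h4 : bk o M (o ⟨M * k + i, h2 i⟩) = x0 := by
    unfold bk
    rw [hx0, o.apply_eq_iff_eq, Fin.mk.injEq, h3]
  have h5 : ps o hM (o ⟨M * k + i, h2 i⟩) = i := by
    unfold ps
    apply Fin.ext
    simp only
    rw [idx_o]
    simp only
    rw [Nat.mul_add_mod, Nat.mod_eq_of_lt i.2]
  rw [h4, h5, hi, Equiv.apply_symm_apply]

theorem pp_surj' (i : Fin M) (hi : (i : ℕ) < Fintype.card V % M) :
    ∃ v, idx o v / M = Fintype.card V / M ∧ pp o hM e f v = e i := by
  have h2 : M * (Fintype.card V / M) + i < Fintype.card V := by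
    have := Nat.div_add_mod (Fintype.card V) M
    omega
  have h3 : idx o (o ⟨M * (Fintype.card V / M) + i, h2⟩) / M = Fintype.card V / M := by
    rw [idx_o]
    simp only
    rw [Nat.mul_add_div hM, Nat.div_eq_of_lt i.2, Nat.add_zero]
  refine ⟨o ⟨M * (Fintype.card V / M) + i, h2⟩, h3, ?_⟩
  unfold pp
  rw [if_neg (by unfold full; rw [h3]; exact lt_irrefl _)]
  congr 1
  unfold ps
  apply Fin.ext
  simp only
  rw [idx_o]
  simp only
  rw [Nat.mul_add_mod, Nat.mod_eq_of_lt i.2]

theorem last_pos {v : V} (h : ¬ full o M v) : (ps o hM v : ℕ) < Fintype.card V % M := by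
  have h1 := not_full o h
  have h2 := idx_lt o v
  have h3 := Nat.div_add_mod (Fintype.card V) M
  have h4 := Nat.div_add_mod (idx o v) M
  rw [h1] at h4
  simp only [ps]
  omega

theorem mem_at' {π : V → Fin M} {a : Fin M} {v : V} : v ∈ at' π {a} ↔ π v = a := by
  simp [at']

/-- sizes -/
theorem card_at (i : Fin M) : (at' (pp o hM e f) {e i}).card =
    Fintype.card V / M + if (i : ℕ) < Fintype.card V % M then 1 else 0 := by
  have h1 : ((at' (pp o hM e f) {e i}).image (fun v => idx o v / M)).card =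
      (at' (pp o hM e f) {e i}).card := by
    apply Finset.card_image_of_injOn
    intro v hv w hw h
    have hv' := mem_at'.1 hv
    have hw' := mem_at'.1 hw
    exact pp_inj o hM e f h (hv'.trans hw'.symm)
  rw [← h1]
  have h2 : (at' (pp o hM e f) {e i}).image (fun v => idx o v / M) =
      range (Fintype.card V / M + if (i : ℕ) < Fintype.card V % M then 1 else 0) := by
    ext k
    simp only [Finset.mem_image, Finset.mem_range]
    constructor
    · rintro ⟨v, hv, rfl⟩
      have hv' := mem_at'.1 hv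
      by_cases hf : full o M v
      · exact lt_of_lt_of_le hf (Nat.le_add_right _ _)
      · have h3 := not_full o hf
        have h4 := last_pos o hM hf
        have h5 : ps o hM v = i := by
          unfold pp at hv'
          rw [if_neg hf] at hv'
          exact e.injective hv'
        rw [h5] at h4
        rw [if_pos h4, h3]
        exact Nat.lt_succ_self _
    · intro hk
      by_cases hk' : k < Fintype.card V / M
      · obtain ⟨v, hv1, hv2⟩ := pp_surj o hM e f k hk' (e i)
        exact ⟨v, mem_at'.2 hv2, hv1⟩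
      · split_ifs at hk with hi
        · obtain ⟨v, hv1, hv2⟩ := pp_surj' o hM e f i hi
          exact ⟨v, mem_at'.2 hv2, hv1.trans (by omega)⟩
        · omega
  rw [h2, Finset.card_range]

/-- the last vertices -/
noncomputable def last (M : ℕ) : Finset V := univ.filter (fun v => ¬ full o M v)

include hM in
theorem card_last : (last o M).card ≤ M := by
  have h1 : ((last o M).image (fun v => ps o hM v)).card = (last o M).card := by
    apply Finset.card_image_of_injOn
    intro v hv w hw h
    simp only [last, Finset.coe_filter, Finset.mem_univ, true_and, Set.mem_setOf_eq] at hv hw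
    exact eq_of o hM ((not_full o hv).trans (not_full o hw).symm) h
  rw [← h1]
  exact (Finset.card_le_univ _).trans (by simp)

/-- sums of monotone functions over the full blocks -/
theorem sum_full (a : Fin M) (F : ℕ → ℝ) :
    ∑ v ∈ (at' (pp o hM e f) {a}).filter (full o M), F (idx o v / M) =
      ∑ k ∈ range (Fintype.card V / M), F k := by
  have h2 : ((at' (pp o hM e f) {a}).filter (full o M)).image (fun v => idx o v / M) =
      range (Fintype.card V / M) := by
    ext k
    simp only [Finset.mem_image, Finset.mem_range, Finset.mem_filter]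
    constructor
    · rintro ⟨v, ⟨hv, hf⟩, rfl⟩
      exact hf
    · intro hk
      obtain ⟨v, hv1, hv2⟩ := pp_surj o hM e f k hk a
      exact ⟨v, ⟨mem_at'.2 hv2, by unfold full; rw [hv1]; exact hk⟩, hv1⟩
  rw [← h2, Finset.sum_image]
  intro v hv w hw h
  simp only [Finset.coe_filter, Set.mem_setOf_eq] at hv hw
  exact pp_inj o hM e f h ((mem_at'.1 hv.1).trans (mem_at'.1 hw.1).symm)

/-- the extension of `g` to the natural numbers by `0` -/
noncomputable def ext (g : V → ℝ) (j : ℕ) : ℝ :=
  if h : j < Fintype.card V then g (o ⟨j, h⟩) else 0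

theorem ext_mono {g : V → ℝ} (hg : Monotone (fun i => g (o i))) (hg0 : ∀ v, g v ≤ 0) :
    Monotone (ext o g) := by
  intro i j hij
  unfold ext
  by_cases hj : j < Fintype.card V
  · have hi : i < Fintype.card V := lt_of_le_of_lt hij hj
    rw [dif_pos hi, dif_pos hj]
    exact hg (by exact_mod_cast hij : (⟨i, hi⟩ : Fin (Fintype.card V)) ≤ ⟨j, hj⟩)
  · rw [dif_neg hj]
    split_ifs with hi
    · exact hg0 _
    · exact le_rfl

theorem ext_idx (g : V → ℝ) (v : V) : ext o g (idx o v) = g v := by
  unfold ext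
  rw [dif_pos (idx_lt o v), o_idx]

theorem sum_le (g : V → ℝ) (c : ℝ) (hg : Monotone (fun i => g (o i))) (hg0 : ∀ v, g v ≤ 0)
    (hgc : ∀ v, -c ≤ g v) (hc : 0 ≤ c) (a b : Fin M) :
    (∑ v ∈ at' (pp o hM e f) {a}, g v) - (∑ v ∈ at' (pp o hM e f) {b}, g v) ≤ 2 * c := by
  have hm := ext_mono o hg hg0
  have h0 : ∀ j, ext o g j ≤ 0 := by
    intro j
    unfold ext
    split_ifs
    · exact hg0 _
    · exact le_rfl
  have hc' : ∀ j, -c ≤ ext o g j := by
    intro j
    unfold ext
    split_ifs
    · exact hgc _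
    · linarith
  rw [← Finset.sum_filter_add_sum_filter_not (at' (pp o hM e f) {a}) (full o M),
    ← Finset.sum_filter_add_sum_filter_not (at' (pp o hM e f) {b}) (full o M)]
  have h1 : ∑ v ∈ (at' (pp o hM e f) {a}).filter (full o M), g v ≤
      ∑ k ∈ range (Fintype.card V / M), ext o g (M * (k + 1)) := by
    rw [← sum_full o hM e f a (fun k => ext o g (M * (k + 1)))]
    apply Finset.sum_le_sum
    intro v _
    rw [← ext_idx o g v]
    apply hm
    have := Nat.lt_mul_div_succ (idx o v) hM
    exact this.le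
  have h2 : ∑ k ∈ range (Fintype.card V / M), ext o g (M * k) ≤
      ∑ v ∈ (at' (pp o hM e f) {b}).filter (full o M), g v := by
    rw [← sum_full o hM e f b (fun k => ext o g (M * k))]
    apply Finset.sum_le_sum
    intro v _
    rw [← ext_idx o g v]
    apply hm
    exact Nat.mul_div_le _ _
  have h3 : ∑ k ∈ range (Fintype.card V / M), ext o g (M * (k + 1)) -
      ∑ k ∈ range (Fintype.card V / M), ext o g (M * k) ≤ c := by
    rw [← Finset.sum_sub_distrib, Finset.sum_range_sub (fun k => ext o g (M * k))]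
    have := h0 (M * (Fintype.card V / M))
    have := hc' (M * 0)
    linarith
  have h4 : ∑ v ∈ (at' (pp o hM e f) {a}).filter (fun v => ¬ full o M v), g v ≤ 0 :=
    Finset.sum_nonpos fun v _ => hg0 v
  have h5 : -c ≤ ∑ v ∈ (at' (pp o hM e f) {b}).filter (fun v => ¬ full o M v), g v := by
    have h6 : ((at' (pp o hM e f) {b}).filter (fun v => ¬ full o M v)).card ≤ 1 := by
      rw [Finset.card_le_one]
      intro v hv w hw
      rw [Finset.mem_filter] at hv hw
      exact pp_inj o hM e f ((not_full o hv.2).trans (not_full o hw.2).symm)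
        ((mem_at'.1 hv.1).trans (mem_at'.1 hw.1).symm)
    have h7 : (((at' (pp o hM e f) {b}).filter (fun v => ¬ full o M v)).card : ℝ) ≤ 1 := by
      exact_mod_cast h6
    calc -c = 1 * (-c) := by ring
      _ ≤ (((at' (pp o hM e f) {b}).filter (fun v => ¬ full o M v)).card : ℝ) * (-c) :=
          mul_le_mul_of_nonpos_right h7 (by linarith)
      _ ≤ _ := by
          rw [← nsmul_eq_mul]
          exact Finset.card_nsmul_le_sum _ _ _ fun v _ => hgc v
  linarith

/-! ### Comparison of `at'` and `cc` -/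

theorem at_sub (P : Finset (Fin M)) :
    at' (pp o hM e f) P ⊆ cc M (bk o M) (ps o hM) f P ∪ last o M := by
  intro v hv
  simp only [at', cc, last, Finset.mem_union, Finset.mem_filter, Finset.mem_univ, true_and] at hv ⊢
  by_cases h : full o M v
  · left
    unfold pp at hv
    rwa [if_pos h] at hv
  · exact Or.inr h

theorem cc_sub (P : Finset (Fin M)) :
    cc M (bk o M) (ps o hM) f P ⊆ at' (pp o hM e f) P ∪ last o M := by
  intro v hv
  simp only [at', cc, last, Finset.mem_union, Finset.mem_filter, Finset.mem_univ, true_and] at hv ⊢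
  by_cases h : full o M v
  · left
    unfold pp
    rwa [if_pos h]
  · exact Or.inr h

end

theorem card_inter_le {V : Type u} {S X Y L : Finset V} {M : ℕ} (h : X ⊆ Y ∪ L)
    (hL : L.card ≤ M) : ((S ∩ X).card : ℝ) ≤ (S ∩ Y).card + M := by
  have h1 : (S ∩ X).card ≤ (S ∩ Y).card + L.card := by
    refine (Finset.card_le_card (t := (S ∩ Y) ∪ L) ?_).trans (Finset.card_union_le _ _)
    intro v hv
    rw [Finset.mem_inter] at hv
    rcases Finset.mem_union.1 (h hv.2) with h1 | h1
    · exact Finset.mem_union_left _ (Finset.mem_inter.2 ⟨hv.1, h1⟩)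
    · exact Finset.mem_union_right _ h1
  have h2 : ((S ∩ X).card : ℝ) ≤ ((S ∩ Y).card + L.card : ℕ) := by exact_mod_cast h1
  have h3 : (L.card : ℝ) ≤ M := by exact_mod_cast hL
  push_cast at h2
  linarith

theorem ee_nonneg {V : Type u} [Fintype V] (G : SimpleGraph V) (A B : Finset V) :
    0 ≤ ee G A B := Finset.sum_nonneg fun _ _ => Nat.cast_nonneg _

/-- sparsity -/
theorem ee_le {V : Type u} [Fintype V] (G : SimpleGraph V) {d M : ℕ} (hd : ∀ v, (nb G v).card ≤ d)
    {X Y L : Finset V} (h : X ⊆ Y ∪ L) (hL : L.card ≤ M) (hY : Y.card ≤ d) :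
    ee G X X ≤ ee G Y Y + 2 * M * d := by
  have hLr : (L.card : ℝ) ≤ M := by exact_mod_cast hL
  have hYr : (Y.card : ℝ) ≤ d := by exact_mod_cast hY
  have h1 : ee G X X ≤ ∑ a ∈ Y ∪ L, ((nb G a ∩ X).card : ℝ) :=
    Finset.sum_le_sum_of_subset_of_nonneg h fun _ _ _ => Nat.cast_nonneg _
  have h2 : ∑ a ∈ Y ∪ L, ((nb G a ∩ X).card : ℝ) ≤
      ∑ a ∈ Y, ((nb G a ∩ X).card : ℝ) + ∑ a ∈ L, ((nb G a ∩ X).card : ℝ) := by
    rw [← Finset.sum_union_inter]
    have : 0 ≤ ∑ a ∈ Y ∩ L, ((nb G a ∩ X).card : ℝ) :=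
      Finset.sum_nonneg fun _ _ => Nat.cast_nonneg _
    linarith
  have h3 : ∑ a ∈ Y, ((nb G a ∩ X).card : ℝ) ≤ ee G Y Y + M * d := by
    have h4 : ∑ a ∈ Y, ((nb G a ∩ X).card : ℝ) ≤ ∑ a ∈ Y, (((nb G a ∩ Y).card : ℝ) + M) :=
      Finset.sum_le_sum fun a _ => card_inter_le h hL
    rw [Finset.sum_add_distrib, Finset.sum_const, nsmul_eq_mul] at h4
    have h5 : (Y.card : ℝ) * M ≤ d * M := mul_le_mul_of_nonneg_right hYr (Nat.cast_nonneg _)
    unfold ee
    linarith
  have h4 : ∑ a ∈ L, ((nb G a ∩ X).card : ℝ) ≤ M * d := by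
    have h5 : ∑ a ∈ L, ((nb G a ∩ X).card : ℝ) ≤ L.card • (d : ℝ) := by
      apply Finset.sum_le_card_nsmul
      intro a _
      exact_mod_cast (Finset.card_le_card Finset.inter_subset_left).trans (hd a)
    rw [nsmul_eq_mul] at h5
    exact h5.trans (mul_le_mul_of_nonneg_right hLr (Nat.cast_nonneg _))
  linarith

/-- the functional inequality for large sets -/
theorem ff_big {V : Type u} [Fintype V] (G : SimpleGraph V) {M : ℕ} {τ g : ℝ} (hτ : 0 ≤ τ)
    (hg : 0 ≤ g) {C C' L A B : Finset V} (hL : L.card ≤ M) (hC : C ⊆ C' ∪ L)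
    (h1 : g * (A \ L).card ≤ ff G τ C (A \ L) (B \ L)) :
    g * ((A.card : ℝ) - M) - M * A.card - τ * M ≤ ff G τ C' A B := by
  have hLr : (L.card : ℝ) ≤ M := by exact_mod_cast hL
  have h2 : (A.card : ℝ) - M ≤ (A \ L).card := by
    have h3 : A.card ≤ (A \ L).card + L.card := by
      have := Finset.card_le_card (s := A) (t := (A \ L) ∪ L) (by
        intro v hv
        by_cases h : v ∈ L
        · exact Finset.mem_union_right _ h
        · exact Finset.mem_union_left _ (Finset.mem_sdiff.2 ⟨hv, h⟩))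
      exact this.trans (Finset.card_union_le _ _)
    have h4 : (A.card : ℝ) ≤ ((A \ L).card + L.card : ℕ) := by exact_mod_cast h3
    push_cast at h4
    linarith
  have h3 : ((B \ L).card : ℝ) ≤ B.card := by
    exact_mod_cast Finset.card_le_card Finset.sdiff_subset
  have h4 : ee G (A \ L) (C \ (B \ L)) ≤ ee G A (C' \ B) + M * A.card := by
    have h5 : ee G (A \ L) (C \ (B \ L)) ≤ ∑ a ∈ A, ((nb G a ∩ (C \ (B \ L))).card : ℝ) :=
      Finset.sum_le_sum_of_subset_of_nonneg Finset.sdiff_subset fun _ _ _ => Nat.cast_nonneg _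
    have h6 : ∑ a ∈ A, ((nb G a ∩ (C \ (B \ L))).card : ℝ) ≤
        ∑ a ∈ A, (((nb G a ∩ (C' \ B)).card : ℝ) + M) := by
      refine Finset.sum_le_sum fun a _ => card_inter_le (L := L) ?_ hL
      intro v hv
      rw [Finset.mem_sdiff, Finset.mem_sdiff] at hv
      rw [Finset.mem_union, Finset.mem_sdiff]
      by_cases h : v ∈ L
      · exact Or.inr h
      · left
        rcases Finset.mem_union.1 (hC hv.1) with h7 | h7
        · exact ⟨h7, fun h8 => hv.2 ⟨h8, h⟩⟩
        · exact absurd h7 h
    rw [Finset.sum_add_distrib, Finset.sum_const, nsmul_eq_mul] at h6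
    unfold ee at h5 ⊢
    linarith
  unfold ff at h1 ⊢
  have h5 : g * ((A.card : ℝ) - M) ≤ g * (A \ L).card := mul_le_mul_of_nonneg_left h2 hg
  have h6 : τ * (((B \ L).card : ℝ) - (A \ L).card) ≤ τ * ((B.card : ℝ) - A.card + M) :=
    mul_le_mul_of_nonneg_left (by linarith) hτ
  have h7 : τ * ((B.card : ℝ) - A.card + M) = τ * ((B.card : ℝ) - A.card) + τ * M := by ring
  linarith

/-- the functional inequality for small sets -/
theorem ff_small {V : Type u} [Fintype V] (G : SimpleGraph V) {τ x : ℝ} {C' A B : Finset V}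
    (hA : (A.card : ℝ) ≤ τ) (h1 : ∀ a, x ≤ ((nb G a ∩ C').card : ℝ)) :
    (x - τ) * A.card ≤ ff G τ C' A B := by
  have h2 : (x - B.card) * A.card ≤ ee G A (C' \ B) := by
    unfold ee
    rw [mul_comm, ← nsmul_eq_mul]
    refine Finset.card_nsmul_le_sum _ _ _ fun a _ => ?_
    have h3 : (nb G a ∩ C').card ≤ (nb G a ∩ (C' \ B)).card + B.card := by
      refine (Finset.card_le_card (t := (nb G a ∩ (C' \ B)) ∪ B) ?_).trans (Finset.card_union_le _ _)
      intro v hv
      rw [Finset.mem_inter] at hv
      by_cases h : v ∈ B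
      · exact Finset.mem_union_right _ h
      · exact Finset.mem_union_left _ (Finset.mem_inter.2 ⟨hv.1, Finset.mem_sdiff.2 ⟨hv.2, h⟩⟩)
    have h4 : ((nb G a ∩ C').card : ℝ) ≤ ((nb G a ∩ (C' \ B)).card + B.card : ℕ) := by
      exact_mod_cast h3
    push_cast at h4
    have := h1 a
    linarith
  unfold ff
  have h3 : (A.card : ℝ) * B.card ≤ τ * B.card := mul_le_mul_of_nonneg_right hA (Nat.cast_nonneg _)
  nlinarith

end PARTXAux

open PARTXAux

/-- Block PARTX. -/
theorem stmt_PARTX (hPX1 : Stmt_PX1.{u}) : Stmt_PARTX.{u} := by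
  intro γ δ M hγ hγ1 hδ hM
  have hMr : (1 : ℝ) ≤ M := by exact_mod_cast hM
  set δ' : ℝ := min δ (1 / (8 * M)) with hδ'
  have hδ'0 : 0 < δ' := lt_min hδ (by positivity)
  have hδ'δ : δ' ≤ δ := min_le_left _ _
  have hδ'M : δ' ≤ 1 / (8 * M) := min_le_right _ _
  obtain ⟨ε1, d1, hε1, hd1, H⟩ := hPX1 γ (δ' / 2) M hγ hγ1 (by positivity) hM
  obtain ⟨N, hN⟩ := exists_nat_ge (8 * (M : ℝ) ^ 2 + 128 * M ^ 2 / γ + 4 * M / δ')
  refine ⟨min ε1 (δ / 2), max d1 N, lt_min hε1 (by positivity), hd1.trans (le_max_left _ _), ?_⟩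
  intro V _ G d e hd hNR hBE
  have hdr : 8 * (M : ℝ) ^ 2 + 128 * M ^ 2 / γ + 4 * M / δ' ≤ d :=
    hN.trans (by exact_mod_cast (le_max_right _ _).trans hd)
  have hp1 : 0 ≤ 8 * (M : ℝ) ^ 2 := by positivity
  have hp2 : 0 ≤ 128 * (M : ℝ) ^ 2 / γ := by positivity
  have hp3 : 0 ≤ 4 * (M : ℝ) / δ' := by positivity
  have hd0 : (0 : ℝ) < d := by nlinarith
  have hdδ : 4 * (M : ℝ) ≤ δ' * d := by
    have : 4 * (M : ℝ) / δ' ≤ d := by linarith
    rw [div_le_iff₀ hδ'0] at this
    linarith
  have hNR1 : NR G d ε1 := by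
    intro v
    refine ⟨(hNR v).1, le_trans ?_ (hNR v).2⟩
    have : min ε1 (δ / 2) ≤ ε1 := min_le_left _ _
    nlinarith
  have hdeg : ∀ v, (nb G v).card ≤ d := fun v => (hNR v).1
  obtain ⟨o, ho⟩ := exists_sort (fun v => (nb G v).card)
  obtain ⟨f, hf1, hf2⟩ := H G d (bk o M) (ps o hM) ((le_max_left _ _).trans hd) hNR1 hBE
    (blocks o hM)
  have hlast := card_last o hM
  -- degrees
  have hD : ∀ v (P : Finset (Fin M)),
      |((nb G v ∩ at' (pp o hM e f) P).card : ℝ) - (P.card : ℝ) / M * d| ≤ δ' * d := by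
    intro v P
    have h1 := (hf1 v P).1
    have h2 := card_inter_le (S := nb G v) (at_sub o hM e f P) hlast
    have h3 := card_inter_le (S := nb G v) (cc_sub o hM e f P) hlast
    rw [abs_le] at h1 ⊢
    constructor <;> linarith
  refine ⟨pp o hM e f, card_at o hM e f, ?_, ?_, ?_, ?_⟩
  · -- degree sums
    intro a b
    set g : V → ℝ := fun v => ((nb G v).card : ℝ) - d with hg
    have hgm : Monotone (fun i => g (o i)) := by
      intro i j hij
      have h1 : ((nb G (o i)).card : ℝ) ≤ (nb G (o j)).card := by exact_mod_cast ho hij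
      simp only [hg]
      linarith
    have hg0 : ∀ v, g v ≤ 0 := by
      intro v
      have h1 : ((nb G v).card : ℝ) ≤ d := by exact_mod_cast hdeg v
      simp only [hg]
      linarith
    have hgc : ∀ v, -(δ / 2 * d) ≤ g v := by
      intro v
      have h1 := (hNR v).2
      have : min ε1 (δ / 2) ≤ δ / 2 := min_le_right _ _
      simp only [hg]
      nlinarith
    have h1 := sum_le o hM e f g (δ / 2 * d) hgm hg0 hgc (by positivity) a b
    have h2 := sum_le o hM e f g (δ / 2 * d) hgm hg0 hgc (by positivity) b a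
    have h3 : ∀ a, ∑ v ∈ at' (pp o hM e f) {a}, g v =
        ∑ v ∈ at' (pp o hM e f) {a}, ((nb G v).card : ℝ) -
          ((at' (pp o hM e f) {a}).card : ℝ) * d := by
      intro a
      simp only [hg]
      rw [Finset.sum_sub_distrib, Finset.sum_const, nsmul_eq_mul]
    rw [h3, h3] at h1 h2
    rw [abs_le]
    constructor <;> nlinarith
  · intro v P
    exact (hD v P).trans (mul_le_mul_of_nonneg_right hδ'δ hd0.le)
  · -- sparsity
    intro v P
    have h1 := (hf1 v P).2
    have h2 : ee G (nb G v ∩ at' (pp o hM e f) P) (nb G v ∩ at' (pp o hM e f) P) ≤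
        ee G (nb G v ∩ cc M (bk o M) (ps o hM) f P) (nb G v ∩ cc M (bk o M) (ps o hM) f P) +
          2 * M * d := by
      refine ee_le G hdeg (L := last o M) ?_ hlast
        ((Finset.card_le_card Finset.inter_subset_left).trans (hdeg v))
      intro w hw
      rw [Finset.mem_inter] at hw
      rcases Finset.mem_union.1 (at_sub o hM e f P hw.2) with h3 | h3
      · exact Finset.mem_union_left _ (Finset.mem_inter.2 ⟨hw.1, h3⟩)
      · exact Finset.mem_union_right _ h3
    have h3 : 2 * (M : ℝ) * d ≤ δ' / 2 * (d : ℝ) ^ 2 := by nlinarith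
    have h4 : δ' * (d : ℝ) ^ 2 ≤ δ * (d : ℝ) ^ 2 :=
      mul_le_mul_of_nonneg_right hδ'δ (by positivity)
    linarith
  · -- the functional
    intro P Q hPQ hP A B hA hB hAc
    have hpc : (1 : ℝ) ≤ P.card := by exact_mod_cast hP.card_pos
    have hp : 1 / (M : ℝ) ≤ (P.card : ℝ) / M := div_le_div_of_nonneg_right hpc (by positivity)
    set p : ℝ := (P.card : ℝ) / M with hpdef
    have hM0 : (0 : ℝ) < M := by linarith
    have hp0 : 0 < p := lt_of_lt_of_le (by positivity) hp
    have hpd : (d : ℝ) / M ≤ p * d := by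
      have := mul_le_mul_of_nonneg_right hp hd0.le
      rwa [one_div_mul_eq_div] at this
    by_cases hbig : (4 + 64 / γ) * M ≤ (A.card : ℝ)
    · -- large sets
      have h1 : γ / 32 * (p * d) * (A \ last o M).card ≤
          ff G (p * d / 2) (cc M (bk o M) (ps o hM) f Q) (A \ last o M) (B \ last o M) := by
        apply hf2 P Q hPQ hP
        · intro v hv
          rw [Finset.mem_sdiff] at hv
          rcases Finset.mem_union.1 (at_sub o hM e f P (hA hv.1)) with h3 | h3
          · exact h3
          · exact absurd h3 hv.2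
        · intro v hv
          rw [Finset.mem_sdiff] at hv
          rcases Finset.mem_union.1 (at_sub o hM e f Q (hB hv.1)) with h3 | h3
          · exact h3
          · exact absurd h3 hv.2
        · have h3 : (A \ last o M).card ≤ A.card := Finset.card_le_card Finset.sdiff_subset
          have h4 : (at' (pp o hM e f) P).card ≤ (cc M (bk o M) (ps o hM) f P).card + M :=
            (Finset.card_le_card (at_sub o hM e f P)).trans
              ((Finset.card_union_le _ _).trans (Nat.add_le_add_left hlast _))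
          omega
      have h2 := ff_big G (C' := at' (pp o hM e f) Q) (M := M) (τ := p * d / 2)
        (g := γ / 32 * (p * d)) (by positivity) (by positivity) hlast (cc_sub o hM e f Q) h1
      refine le_trans ?_ h2
      have h3 : (4 + 64 / γ) * M * γ ≤ (A.card : ℝ) * γ := mul_le_mul_of_nonneg_right hbig hγ.le
      have h4 : (4 + 64 / γ) * M * γ = 4 * M * γ + 64 * M := by field_simp
      rw [h4] at h3
      have h5 : 128 * (M : ℝ) ≤ γ * (p * d) := by
        have h6 : 128 * (M : ℝ) ^ 2 / γ ≤ d := by linarith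
        rw [div_le_iff₀ hγ] at h6
        have h7 : 128 * (M : ℝ) ≤ γ * (d / M) := by
          rw [← mul_div_assoc, le_div_iff₀ hM0]
          linarith
        exact h7.trans (mul_le_mul_of_nonneg_left hpd hγ.le)
      have h6 : 0 ≤ (p * d) * ((A.card : ℝ) * γ - 4 * M * γ - 64 * M) :=
        mul_nonneg (by positivity) (by linarith)
      have h7 : 128 * (M : ℝ) * A.card ≤ γ * (p * d) * A.card :=
        mul_le_mul_of_nonneg_right h5 (Nat.cast_nonneg _)
      nlinarith
    · -- small sets
      push_neg at hbig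
      have h1 : (A.card : ℝ) ≤ p * d / 2 := by
        have h2 : 2 * ((4 + 64 / γ) * M) ≤ d / M := by
          rw [le_div_iff₀ hM0]
          have : 2 * ((4 + 64 / γ) * M) * M = 8 * (M : ℝ) ^ 2 + 128 * M ^ 2 / γ := by
            field_simp
            ring
          linarith
        linarith
      have h2 : ∀ a, p * d - δ' * d ≤ ((nb G a ∩ at' (pp o hM e f) Q).card : ℝ) := by
        intro a
        have h3 := (abs_le.1 (hD a Q)).1
        rw [← hPQ, ← hpdef] at h3
        linarith
      have h3 := ff_small (B := B) G h1 h2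
      refine le_trans ?_ h3
      have h4 : δ' ≤ p / 8 := by
        refine hδ'M.trans ?_
        have : 1 / (8 * (M : ℝ)) = 1 / M / 8 := by field_simp
        rw [this]
        linarith
      apply mul_le_mul_of_nonneg_right _ (Nat.cast_nonneg _)
      have h5 : δ' * d ≤ p / 8 * d := mul_le_mul_of_nonneg_right h4 hd0.le
      have h6 : γ / 64 * (p * d) ≤ 1 / 64 * (p * d) :=
        mul_le_mul_of_nonneg_right (by linarith) (by positivity)
      have h7 : 0 < p * d := by positivity
      linarith

end Pool.Agent.Work.MP_db9399_px.helper6
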